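import Pool.Agent.helper64.OT.SpecW

/-!
Row `ot:CPQ` (MP_f6e9a2_nt): two quadratic polynomials are coprime or have a common root.
-/

set_option autoImplicit false

namespace Pool.Agent.OT

open Finset Polynomial

theorem CPQ_const {p : ℕ} [Fact p.Prime] (g : (ZMod p)[X]) (k : ZMod p) (hg : ¬ IsUnit g) (h : g ∣ C k) : k = 0 := by
  by_contra hk
  exact hg (isUnit_of_dvd_unit h (isUnit_C.2 (IsUnit.mk0 _ hk)))

theorem CPQ_lin {p : ℕ} [Fact p.Prime] (g R : (ZMod p)[X]) (u v : ZMod p) (hg : ¬ IsUnit g) (hu : u ≠ 0)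
    (h : g ∣ C u * X + C v) (hR : g ∣ R) : R.eval (-(u⁻¹ * v)) = 0 := by
  refine CPQ_const g _ hg ?_
  have h1 : g ∣ X - C (-(u⁻¹ * v)) := by
    have h2 : X - C (-(u⁻¹ * v)) = C u⁻¹ * (C u * X + C v) := by
      rw [mul_add, ← mul_assoc, ← C_mul, ← C_mul, inv_mul_cancel₀ hu, C_1, one_mul, C_neg, sub_neg_eq_add]
    rw [h2]
    exact Dvd.dvd.mul_left h _
  have h3 : g ∣ R - C (R.eval (-(u⁻¹ * v))) := h1.trans X_sub_C_dvd_sub_C_eval
  have h4 := dvd_sub hR h3
  rwa [sub_sub_cancel] at h4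

theorem CPQ : CPQ_stmt := by
  intro p _ _ a b c a' b' c' hD hD' hn
  by_contra hcon
  rw [not_or] at hcon
  obtain ⟨hcop, hroot⟩ := hcon
  set P : (ZMod p)[X] := C a * X ^ 2 + C b * X + C c with hP
  set Q : (ZMod p)[X] := C a' * X ^ 2 + C b' * X + C c' with hQ
  set g := EuclideanDomain.gcd P Q with hgdef
  have hg : ¬ IsUnit g := fun h => hcop (EuclideanDomain.gcd_isUnit_iff.1 h)
  have hgP : g ∣ P := EuclideanDomain.gcd_dvd_left _ _
  have hgQ : g ∣ Q := EuclideanDomain.gcd_dvd_right _ _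
  have eP : ∀ x, P.eval x = a * x ^ 2 + b * x + c := by intro x; simp [hP]
  have eQ : ∀ x, Q.eval x = a' * x ^ 2 + b' * x + c' := by intro x; simp [hQ]
  have hlin : ∀ u v : ZMod p, u ≠ 0 → g ∣ C u * X + C v → False := by
    intro u v hu h
    refine hroot ⟨-(u⁻¹ * v), ?_, ?_⟩
    · rw [← eP]; exact CPQ_lin g P u v hg hu h hgP
    · rw [← eQ]; exact CPQ_lin g Q u v hg hu h hgQ
  have hcomb : g ∣ C (a' * b - a * b') * X + C (a' * c - a * c') := by
    have h1 : C (a' * b - a * b') * X + C (a' * c - a * c') = C a' * P - C a * Q := by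
      rw [hP, hQ]
      simp only [C_sub, C_mul]
      ring
    rw [h1]
    exact dvd_sub (Dvd.dvd.mul_left hgP _) (Dvd.dvd.mul_left hgQ _)
  have hu : a' * b - a * b' = 0 := by
    by_contra h
    exact hlin _ _ h hcomb
  rw [hu, C_0, zero_mul, zero_add] at hcomb
  have hv : a' * c - a * c' = 0 := CPQ_const g _ hg hcomb
  by_cases ha : a = 0
  · subst ha
    have hb : b ≠ 0 := by
      rintro rfl
      exact hD (by ring)
    refine hlin b c hb ?_
    rw [hP, C_0, zero_mul, zero_add] at hgP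
    exact hgP
  · have hb' : b' = a' / a * b := by
      field_simp
      linear_combination -hu
    have hc' : c' = a' / a * c := by
      field_simp
      linear_combination -hv
    refine hn ⟨a' / a, ?_, ?_, hb', hc'⟩
    · intro h0
      rw [h0, zero_mul] at hb' hc'
      exact hD' (by rw [hb', hc']; ring)
    · field_simp

end Pool.Agent.OT
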