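import Pool.Agent.helper64.OT.SpecI

/-!
Row `ol:APC` (MP_f6e9a2_nt): a system is covered by few translates of a progression.
-/

set_option autoImplicit false

namespace Pool.Agent.OL

open Finset Pool.Agent.OT Pool.Agent.SPI Pool.Agent.helper85.PG
open scoped Pointwise

theorem APC_inj {p : ℕ} [Fact p.Prime] (m : ℕ) (v : ZMod p) (hv : v ≠ 0) (hmp : m < p) :
    Set.InjOn (fun n : ℕ => (n : ZMod p) * v) (range m : Set ℕ) := by
  intro a ha b hb hab
  have h1 : (a : ZMod p) = (b : ZMod p) := mul_right_cancel₀ hv hab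
  have h2 := (ZMod.natCast_eq_natCast_iff' a b p).1 h1
  have ha' : a < m := mem_range.1 ha
  have hb' : b < m := mem_range.1 hb
  rwa [Nat.mod_eq_of_lt (ha'.trans hmp), Nat.mod_eq_of_lt (hb'.trans hmp)] at h2

theorem APC (hPKC : PKC_stmt) (hCEM : CEM_stmt) : APC_stmt := by
  intro p _ d m P hP hm hmp hbig
  have hm0 : (0 : ℝ) < m := by exact_mod_cast hm
  obtain ⟨h1, _⟩ := hPKC.2.2 p d P hP 1 (1 / m) zero_le_one (by positivity)
  obtain ⟨h2, _⟩ := hPKC.2.2 p d P hP 2 1 (by norm_num) one_pos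
  have e1 : (2 : ℝ) * 1 / (1 / m) = 2 * m := by
    rw [mul_one, div_div_eq_mul_div, div_one]
  rw [e1] at h1
  have hK : (0 : ℝ) < (1 + 2 * (m : ℝ)) ^ d := by positivity
  have h3 : (1 : ℝ) < ((P (1 / (m : ℝ))).card : ℝ) := by
    by_contra hcon
    push Not at hcon
    have := mul_le_mul_of_nonneg_left hcon hK.le
    linarith
  have h3' : 1 < (P (1 / (m : ℝ))).card := by exact_mod_cast h3
  obtain ⟨v, hvP, hv⟩ := exists_mem_ne h3' 0
  have hnv : ∀ n : ℕ, n ≤ m → (n : ZMod p) * v ∈ P 1 := by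
    intro n hn
    have h4 := hP.nat_mul_mem hvP n
    have h5 : (n : ℝ) * (1 / (m : ℝ)) ≤ 1 := by
      rw [mul_one_div, div_le_one hm0]
      exact_mod_cast hn
    exact hP.mono h5 h4
  set A : Finset (ZMod p) := (range m).image fun n : ℕ => (n : ZMod p) * v with hA
  have hAc : A.card = m := by
    rw [hA, card_image_of_injOn (APC_inj m v hv hmp), card_range]
  have hAne : A.Nonempty := card_pos.1 (by rw [hAc]; exact hm)
  have hAP : ∀ a ∈ A, a ∈ P 1 := by
    intro a ha
    obtain ⟨n, hn, rfl⟩ := mem_image.1 ha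
    exact hnv n (mem_range.1 hn).le
  obtain ⟨J, cl, hJB, _, hcl, hdis⟩ := hCEM p A (P 1) hAne
  have hcard : J.card * m ≤ (P 2).card := by
    rw [← hAc, ← card_product]
    refine card_le_card_of_injOn (fun z => z.1 + z.2) ?_ ?_
    · intro z hz
      have hz' := mem_product.1 (mem_coe.1 hz)
      have h6 := hP.add_mem (hJB hz'.1) (hAP _ hz'.2)
      have h7 : (1 : ℝ) + 1 = 2 := by norm_num
      rw [h7] at h6
      exact h6
    · rintro ⟨y, a⟩ hz ⟨y', a'⟩ hz' heq
      have hz1 := mem_product.1 (mem_coe.1 hz)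
      have hz2 := mem_product.1 (mem_coe.1 hz')
      have heq' : y + a = y' + a' := heq
      have h6 : y = y' := hdis y hz1.1 y' hz2.1 a hz1.2 a' hz2.2 heq'
      subst h6
      have h7 := add_left_cancel heq'
      rw [h7]
  refine ⟨v, J ∪ J.image fun y => y - (m : ZMod p) * v, hv, ?_, ?_⟩
  · have h6 : ((J ∪ J.image fun y => y - (m : ZMod p) * v).card : ℝ) ≤ 2 * J.card := by
      have h7 := card_union_le J (J.image fun y => y - (m : ZMod p) * v)
      have h8 : (J.image fun y => y - (m : ZMod p) * v).card ≤ J.card := card_image_le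
      have h9 : (J ∪ J.image fun y => y - (m : ZMod p) * v).card ≤ 2 * J.card := by omega
      exact_mod_cast h9
    have h7 : (J.card : ℝ) * m ≤ ((P 2).card : ℝ) := by exact_mod_cast hcard
    have e2 : (1 + 2 * (2 : ℝ) / 1) = 5 := by norm_num
    rw [e2] at h2
    calc ((J ∪ J.image fun y => y - (m : ZMod p) * v).card : ℝ) * m ≤ 2 * J.card * m :=
          mul_le_mul_of_nonneg_right h6 hm0.le
      _ = 2 * (J.card * m) := by ring
      _ ≤ 2 * (5 ^ d * (P 1).card) := by linarith
      _ = 2 * 5 ^ d * (P 1).card := by ring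
  · intro y hy
    obtain ⟨hy1, hy2⟩ := hcl y hy
    obtain ⟨a, ha, b, hb, hab⟩ := mem_sub.1 hy2
    obtain ⟨k, hk, rfl⟩ := mem_image.1 ha
    obtain ⟨l, hl, rfl⟩ := mem_image.1 hb
    have hk' := mem_range.1 hk
    have hl' := mem_range.1 hl
    have hab' : y = cl y + ((k : ZMod p) * v - (l : ZMod p) * v) := by
      rw [hab]; ring
    rcases le_or_gt l k with hlk | hlk
    · refine ⟨cl y, mem_union_left _ hy1, k - l, by omega, ?_⟩
      rw [Nat.cast_sub hlk, sub_mul]
      exact hab'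
    · refine ⟨cl y - (m : ZMod p) * v, mem_union_right _ (mem_image_of_mem _ hy1), m + k - l, by omega, ?_⟩
      rw [Nat.cast_sub (by omega), Nat.cast_add, sub_mul, add_mul]
      nth_rewrite 1 [hab']
      ring

end Pool.Agent.OL
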